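import Pool.Agent.Y471.Torus.Defs

/-!
# The forms `φ_ω` on the second cohomology of a torus

Definitions for the problem on unimodular forms arising from cohomology classes of the torus,
and a small sorting calculus for products of degree one generators.
-/

namespace Pool.Agent.Y471.Torus

/-- The cohomology ring `H^*(ℤⁿ)`: the exterior algebra over `ℤ` on `n` generators of degree one. -/
abbrev Coh (n : ℕ) : Type := ExteriorAlgebra ℤ (Fin n → ℤ)

/-- The degree `k` part `H^k(ℤⁿ)` of the cohomology ring. -/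
abbrev HDeg (k n : ℕ) : Submodule ℤ (Coh n) := ⋀[ℤ]^k (Fin n → ℤ)

/-- `T` is a generator of `Hⁿ(ℤⁿ)`. -/
def IsTop (n : ℕ) (T : Coh n) : Prop := Submodule.span ℤ {T} = HDeg n n

/-- `φ` is the form `φ_ω`, that is `x ⌣ y ⌣ ω = φ(x, y) [T]` for all `x, y` in `H²(ℤⁿ)`. -/
def IsPhi {n : ℕ} (T ω : Coh n) (φ : LinearMap.BilinForm ℤ (HDeg 2 n)) : Prop :=
  ∀ x y : HDeg 2 n, (x : Coh n) * (y : Coh n) * ω = φ x y • T

/-- The form with Gram matrix `A` arises for `n`: for each generator `T` of `Hⁿ(ℤⁿ)` there is a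
class `ω` of degree `n - 4` such that `H²(ℤⁿ)` has a `ℤ`-basis in which `φ_ω` has Gram matrix `A`. -/
def Arises (n : ℕ) {J : Type} (A : Matrix J J ℤ) : Prop :=
  ∀ T : Coh n, IsTop n T → ∃ ω ∈ HDeg (n - 4) n, ∃ φ : LinearMap.BilinForm ℤ (HDeg 2 n),
    IsPhi T ω φ ∧ ∃ b : Module.Basis J ℤ (HDeg 2 n), ∀ i j, φ (b i) (b j) = A i j

/-! ## Sorting products of generators -/

/-- The generators of degree one. -/
noncomputable def e (i : Fin 8) : Coh 8 := ExteriorAlgebra.ι ℤ (Pi.single i 1)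

/-- The product of the generators in a list. -/
noncomputable def pr (L : List (Fin 8)) : Coh 8 := (L.map e).prod

/-- Insert a generator, with sign. -/
def ins (i : Fin 8) : List (Fin 8) → ℤ × List (Fin 8)
  | [] => (1, [i])
  | j :: l => if i < j then (1, i :: j :: l) else if i = j then (0, []) else
      (-(ins i l).1, j :: (ins i l).2)

/-- Sort a product, with sign. -/
def srt : List (Fin 8) → ℤ × List (Fin 8)
  | [] => (1, [])
  | i :: l => ((srt l).1 * (ins i (srt l).2).1, (ins i (srt l).2).2)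

lemma e_mul_self (i : Fin 8) : e i * e i = 0 := ExteriorAlgebra.ι_sq_zero _

lemma e_mul_swap (i j : Fin 8) : e i * e j = -(e j * e i) :=
  eq_neg_of_add_eq_zero_left (ExteriorAlgebra.ι_add_mul_swap _ _)

lemma pr_cons (i : Fin 8) (l : List (Fin 8)) : pr (i :: l) = e i * pr l := by
  simp [pr]

lemma pr_append (l m : List (Fin 8)) : pr (l ++ m) = pr l * pr m := by
  simp [pr]

lemma e_mul_pr (i : Fin 8) (L : List (Fin 8)) : e i * pr L = (ins i L).1 • pr (ins i L).2 := by
  induction L with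
  | nil => simp [ins, pr]
  | cons j l ih =>
    unfold ins
    split_ifs with h1 h2
    · simp [pr_cons]
    · subst h2
      simp [pr_cons, ← mul_assoc, e_mul_self]
    · rw [pr_cons, ← mul_assoc, e_mul_swap i j, neg_mul, mul_assoc, ih, pr_cons, mul_smul_comm,
        neg_smul]

lemma pr_eq_srt (L : List (Fin 8)) : pr L = (srt L).1 • pr (srt L).2 := by
  induction L with
  | nil => simp [srt]
  | cons i l ih =>
    rw [pr_cons, ih]
    simp only [srt]
    rw [mul_smul_comm, e_mul_pr, smul_smul]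

/-- The full list of indices. -/
def full : List (Fin 8) := [0, 1, 2, 3, 4, 5, 6, 7]

/-- The standard top class. -/
noncomputable def T0 : Coh 8 := pr full

lemma pr_top {L : List (Fin 8)} (h : (srt L).1 = 0 ∨ (srt L).2 = full) :
    pr L = (srt L).1 • T0 := by
  rw [pr_eq_srt]
  rcases h with h | h
  · simp [h]
  · rw [h, T0]

/-! ## The top degree -/

lemma span_e : Submodule.span ℤ (Set.range fun i : Fin 8 => (Pi.single i 1 : Fin 8 → ℤ)) = ⊤ := by
  have h := (Pi.basisFun ℤ (Fin 8)).span_eq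
  have h2 : (fun i : Fin 8 => (Pi.single i 1 : Fin 8 → ℤ)) = ⇑(Pi.basisFun ℤ (Fin 8)) := by
    funext i
    simp
  rw [h2]
  exact h

lemma iMulti_e (k : ℕ) (f : Fin k → Fin 8) :
    ExteriorAlgebra.ιMulti ℤ k (fun i => (Pi.single (f i) 1 : Fin 8 → ℤ)) = pr (List.ofFn f) := by
  rw [ExteriorAlgebra.ιMulti_apply, pr, List.map_ofFn]
  rfl

lemma pr_mem (L : List (Fin 8)) (k : ℕ) (h : L.length = k) : pr L ∈ HDeg k 8 := by
  subst h
  have h1 : pr L = pr (List.ofFn L.get) := by rw [List.ofFn_get]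
  rw [h1, ← iMulti_e]
  exact ExteriorAlgebra.ιMulti_range ℤ L.length ⟨_, rfl⟩

lemma HDeg_eq (k : ℕ) :
    HDeg k 8 = Submodule.span ℤ (Set.range fun f : Fin k → Fin 8 => pr (List.ofFn f)) := by
  apply le_antisymm
  · refine (exteriorPower.ιMulti_span_fixedDegree_of_span_eq_top ℤ k (Fin 8 → ℤ) span_e).ge.trans ?_
    rw [Submodule.span_le]
    rintro x ⟨a, ha, rfl⟩
    obtain ⟨f, rfl⟩ := Set.range_subset_range_iff_exists_comp.mp ha
    apply Submodule.subset_span
    exact ⟨f, (iMulti_e k f).symm⟩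
  · rw [Submodule.span_le]
    rintro x ⟨f, rfl⟩
    exact pr_mem _ _ (by simp)

/-- The coefficient of the top class. -/
noncomputable def topCoef : Coh 8 →ₗ[ℤ] ℤ :=
  ExteriorAlgebra.liftAlternating (R := ℤ) (M := Fin 8 → ℤ) (N := ℤ)
    (Pi.single 8 (Matrix.detRowAlternating : (Fin 8 → ℤ) [⋀^Fin 8]→ₗ[ℤ] ℤ))

lemma topCoef_T0 : topCoef T0 = 1 := by
  have h : T0 = ExteriorAlgebra.ιMulti ℤ 8 (fun i => (Pi.single i 1 : Fin 8 → ℤ)) := by
    rw [T0, iMulti_e 8 (fun i => i)]
    rfl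
  rw [h, topCoef, ExteriorAlgebra.liftAlternating_apply_ιMulti, Pi.single_eq_same]
  have h2 : (fun i : Fin 8 => (Pi.single i 1 : Fin 8 → ℤ)) = (1 : Matrix (Fin 8) (Fin 8) ℤ) := by
    ext i j
    simp [Pi.single_apply, Matrix.one_apply, eq_comm]
  rw [h2]
  have h3 : ∀ A : Matrix (Fin 8) (Fin 8) ℤ,
      (Matrix.detRowAlternating : (Fin 8 → ℤ) [⋀^Fin 8]→ₗ[ℤ] ℤ) A = A.det := fun A => rfl
  rw [h3, Matrix.det_one]

lemma smul_T0_inj {a b : ℤ} (h : a • T0 = b • T0) : a = b := by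
  have h1 := congrArg topCoef h
  rw [map_smul, map_smul, topCoef_T0] at h1
  simpa using h1

end Pool.Agent.Y471.Torus
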