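import Mathlib

/-!
# The forms `φ_ω` on the second cohomology of a torus: definitions

`H^*(ℤⁿ)` is the exterior algebra over `ℤ` of `ℤⁿ`, and `H^k(ℤⁿ)` is the `k`-th exterior power.
For a generator `T` of `Hⁿ(ℤⁿ)` and a class `ω` of degree `n - 4` the form `φ_ω` on `H²(ℤⁿ)` is
given by `x ⌣ y ⌣ ω = φ_ω(x, y) T`.
-/

namespace Pool.Agent.Y471.Torus

/-- For a ring `C` with homogeneous parts `deg k`: for each generator `T` of `deg n` there are `ω`
in `deg (n - 4)` and a `ℤ`-basis `b` of `deg 2` with `b_i b_j ω = A_ij T` for all `i`, `j`. -/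
def GradedArises {C : Type} [Ring C] (deg : ℕ → Submodule ℤ C) (n : ℕ) {J : Type}
    (A : Matrix J J ℤ) : Prop :=
  ∀ T : C, Submodule.span ℤ {T} = deg n →
    ∃ ω ∈ deg (n - 4), ∃ b : J → C, LinearIndependent ℤ b ∧
      Submodule.span ℤ (Set.range b) = deg 2 ∧ ∀ i j, b i * b j * ω = A i j • T

/-- The form with Gram matrix `A` arises for `n`: for each generator `T` of `Hⁿ(ℤⁿ)` there is a
class `ω` in `H^(n-4)(ℤⁿ)` such that `φ_ω` has Gram matrix `A` in some `ℤ`-basis of `H²(ℤⁿ)`. -/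
def ArisesAs (n : ℕ) {J : Type} (A : Matrix J J ℤ) : Prop :=
  GradedArises (C := ExteriorAlgebra ℤ (Fin n → ℤ)) (fun k => ⋀[ℤ]^k (Fin n → ℤ)) n A

/-- The hyperbolic plane. -/
def Hyp : Matrix (Fin 2) (Fin 2) ℤ := !![0, 1; 1, 0]

/-- The Gram matrix of the orthogonal sum of `k` copies of `H` and `l` copies of `s E₈`. -/
def HE (k l : ℕ) (s : ℤ) :
    Matrix ((Fin 2 × Fin k) ⊕ (Fin 8 × Fin l)) ((Fin 2 × Fin k) ⊕ (Fin 8 × Fin l)) ℤ :=
  Matrix.fromBlocks (Matrix.blockDiagonal fun _ : Fin k => Hyp) 0 0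
    (Matrix.blockDiagonal fun _ : Fin l => s • CartanMatrix.E₈)

end Pool.Agent.Y471.Torus
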