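import Pool.Agent.Y471.Torus.Cert

/-!
# Exclusion of the forms with too few negative (or positive) squares
-/

namespace Pool.Agent.Y471.Torus

open Module

/-- The six indices other than `0` and `i + 1`. -/
def rest (i : Fin 7) : List (Fin 8) :=
  [[2, 3, 4, 5, 6, 7], [1, 3, 4, 5, 6, 7], [1, 2, 4, 5, 6, 7], [1, 2, 3, 5, 6, 7],
    [1, 2, 3, 4, 6, 7], [1, 2, 3, 4, 5, 7], [1, 2, 3, 4, 5, 6]].getD i.val []

/-- The isotropic vectors `e₀ e_{i+1}`. -/
noncomputable def xv (i : Fin 7) : HDeg 2 8 := ⟨pr [0, i.succ], pr_mem _ _ rfl⟩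

lemma xv_isotropic (i j : Fin 7) : (xv i : Coh 8) * (xv j : Coh 8) = 0 := by
  have h : (xv i : Coh 8) * (xv j : Coh 8) = pr ([0, i.succ] ++ [0, j.succ]) := by
    rw [pr_append]
    rfl
  rw [h, pr_eq_srt]
  have h2 : ∀ i j : Fin 7, (srt ([0, i.succ] ++ [0, j.succ])).1 = 0 := by decide
  rw [h2, zero_smul]

lemma rest_check : ∀ i k : Fin 7, ((srt ([0, k.succ] ++ rest i)).1 = 0 ∧ k ≠ i) ∨
    ((srt ([0, k.succ] ++ rest i)).1 ^ 2 = 1 ∧ (srt ([0, k.succ] ++ rest i)).2 = full ∧ k = i) := by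
  decide

lemma xv_li : LinearIndependent ℤ xv := by
  rw [Fintype.linearIndependent_iff]
  intro g hg i
  have h1 : (((∑ k, g k • xv k : HDeg 2 8)) : Coh 8) * pr (rest i)
      = (g i * (srt ([0, i.succ] ++ rest i)).1) • T0 := by
    rw [Submodule.coe_sum, Finset.sum_mul, Finset.sum_eq_single i]
    · rw [Submodule.coe_smul, smul_mul_assoc]
      have h2 : (xv i : Coh 8) * pr (rest i) = (srt ([0, i.succ] ++ rest i)).1 • T0 := by
        rw [← pr_top, pr_append]
        · rfl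
        · rcases rest_check i i with h | h
          · exact absurd rfl h.2
          · exact Or.inr h.2.1
      rw [h2, smul_smul]
    · intro k _ hk
      rw [Submodule.coe_smul, smul_mul_assoc]
      have h2 : (xv k : Coh 8) * pr (rest i) = 0 := by
        have h3 : (xv k : Coh 8) * pr (rest i) = pr ([0, k.succ] ++ rest i) := by
          rw [pr_append]
          rfl
        rw [h3, pr_eq_srt]
        rcases rest_check i k with h | h
        · rw [h.1, zero_smul]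
        · exact absurd h.2.2 hk
      rw [h2, smul_zero]
    · intro h
      exact absurd (Finset.mem_univ i) h
  rw [hg] at h1
  have h4 : g i * (srt ([0, i.succ] ++ rest i)).1 = 0 := by
    apply smul_T0_inj
    rw [← h1]
    simp
  rcases rest_check i i with h | h
  · exact absurd rfl h.2
  · rcases mul_eq_zero.mp h4 with h5 | h5
    · exact h5
    · rw [h5] at h
      exact absurd h.1 (by norm_num)

/-- The quadratic form of `E₈`. -/
def q8 (v : Fin 8 → ℤ) : ℤ := ∑ i, ∑ j, v i * CartanMatrix.E₈ i j * v j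

lemma q8_eq (v : Fin 8 → ℤ) : 60 * q8 v = 30 * (2 * v 0 - v 2) ^ 2 + 30 * (2 * v 1 - v 3) ^ 2 +
    10 * (3 * v 2 - 2 * v 3) ^ 2 + 2 * (5 * v 3 - 6 * v 4) ^ 2 + 3 * (4 * v 4 - 5 * v 5) ^ 2 +
    5 * (3 * v 5 - 4 * v 6) ^ 2 + 10 * (2 * v 6 - 3 * v 7) ^ 2 + 30 * (v 7) ^ 2 := by
  simp only [q8, Fin.sum_univ_eight, CartanMatrix.E₈]
  simp
  ring

lemma q8_nonneg (v : Fin 8 → ℤ) : 0 ≤ q8 v := by
  have h := q8_eq v
  have h2 : 0 ≤ 60 * q8 v := by
    rw [h]
    positivity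
  omega

lemma q8_eq_zero (v : Fin 8 → ℤ) (h0 : q8 v = 0) (i : Fin 8) : v i = 0 := by
  have h := q8_eq v
  rw [h0] at h
  obtain ⟨a0, e0⟩ : ∃ a, a = 2 * v 0 - v 2 := ⟨_, rfl⟩
  obtain ⟨a1, e1⟩ : ∃ a, a = 2 * v 1 - v 3 := ⟨_, rfl⟩
  obtain ⟨a2, e2⟩ : ∃ a, a = 3 * v 2 - 2 * v 3 := ⟨_, rfl⟩
  obtain ⟨a3, e3⟩ : ∃ a, a = 5 * v 3 - 6 * v 4 := ⟨_, rfl⟩
  obtain ⟨a4, e4⟩ : ∃ a, a = 4 * v 4 - 5 * v 5 := ⟨_, rfl⟩
  obtain ⟨a5, e5⟩ : ∃ a, a = 3 * v 5 - 4 * v 6 := ⟨_, rfl⟩
  obtain ⟨a6, e6⟩ : ∃ a, a = 2 * v 6 - 3 * v 7 := ⟨_, rfl⟩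
  rw [← e0, ← e1, ← e2, ← e3, ← e4, ← e5, ← e6] at h
  have p0 := sq_nonneg a0
  have p1 := sq_nonneg a1
  have p2 := sq_nonneg a2
  have p3 := sq_nonneg a3
  have p4 := sq_nonneg a4
  have p5 := sq_nonneg a5
  have p6 := sq_nonneg a6
  have p7 := sq_nonneg (v 7)
  have z0 : a0 = 0 := pow_eq_zero_iff (two_ne_zero) |>.mp (by linarith)
  have z1 : a1 = 0 := pow_eq_zero_iff (two_ne_zero) |>.mp (by linarith)
  have z2 : a2 = 0 := pow_eq_zero_iff (two_ne_zero) |>.mp (by linarith)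
  have z3 : a3 = 0 := pow_eq_zero_iff (two_ne_zero) |>.mp (by linarith)
  have z4 : a4 = 0 := pow_eq_zero_iff (two_ne_zero) |>.mp (by linarith)
  have z5 : a5 = 0 := pow_eq_zero_iff (two_ne_zero) |>.mp (by linarith)
  have z6 : a6 = 0 := pow_eq_zero_iff (two_ne_zero) |>.mp (by linarith)
  have z7 : v 7 = 0 := pow_eq_zero_iff (two_ne_zero) |>.mp (by linarith)
  fin_cases i <;> simp <;> omega

lemma form_eq (k l : ℕ) (s : ℤ) (r : (Fin 2 × Fin k) ⊕ (Fin 8 × Fin l) → ℤ) :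
    ∑ i, ∑ j, r i * HE k l s i j * r j = (∑ t : Fin k, 2 * r (Sum.inl (0, t)) * r (Sum.inl (1, t)))
      + s * ∑ t : Fin l, q8 fun i => r (Sum.inr (i, t)) := by
  simp only [Fintype.sum_sum_type, HE, Matrix.fromBlocks_apply₁₁, Matrix.fromBlocks_apply₁₂,
    Matrix.fromBlocks_apply₂₁, Matrix.fromBlocks_apply₂₂, Matrix.zero_apply, mul_zero, zero_mul,
    Finset.sum_const_zero, add_zero, zero_add]
  congr 1
  · simp only [Fintype.sum_prod_type, Matrix.blockDiagonal_apply, Fin.sum_univ_two, Hyp]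
    simp
    rw [← Finset.sum_add_distrib]
    refine Finset.sum_congr rfl fun t _ => ?_
    ring
  · simp only [Fintype.sum_prod_type, Matrix.blockDiagonal_apply, q8, Finset.mul_sum]
    rw [Finset.sum_comm]
    refine Finset.sum_congr rfl fun t _ => ?_
    refine Finset.sum_congr rfl fun i _ => ?_
    refine Finset.sum_congr rfl fun j _ => ?_
    simp
    ring

/-- With at most six hyperbolic planes the form does not arise in dimension eight. -/
theorem not_arises (k l : ℕ) (s : ℤ) (hs : s = 1 ∨ s = -1) (hk : k ≤ 6) :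
    ¬ Arises 8 (HE k l s) := by
  intro h
  obtain ⟨ω, -, φ, hφ, b, hb⟩ := h T0 isTop_T0
  have hss : s * s = 1 := by rcases hs with h | h <;> simp [h]
  have hiso : ∀ i j, φ (xv i) (xv j) = 0 := by
    intro i j
    apply smul_T0_inj
    rw [← hφ, xv_isotropic, zero_mul, zero_smul]
  have hφr : ∀ x : HDeg 2 8, φ x x = ∑ i, ∑ j, b.repr x i * HE k l s i j * b.repr x j := by
    intro x
    conv_lhs => rw [← b.sum_repr x]
    simp only [map_sum, LinearMap.sum_apply, map_smul, LinearMap.smul_apply, smul_eq_mul, hb]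
    symm
    rw [Finset.sum_comm]
    refine Finset.sum_congr rfl fun i _ => ?_
    rw [Finset.mul_sum]
    refine Finset.sum_congr rfl fun j _ => ?_
    ring
  let f : HDeg 2 8 →ₗ[ℤ] (Fin k → ℤ) :=
    LinearMap.pi fun t => (b.coord (Sum.inl (0, t)) - s • b.coord (Sum.inl (1, t)))
  have hdep : ¬ LinearIndependent ℤ (fun i => f (xv i)) := by
    intro hli
    have h1 := hli.fintype_card_le_finrank
    simp at h1
    omega
  rw [Fintype.not_linearIndependent_iff] at hdep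
  obtain ⟨g, hg, i0, hi0⟩ := hdep
  set x : HDeg 2 8 := ∑ i, g i • xv i with hx
  have hfx : f x = 0 := by
    rw [hx, map_sum, ← hg]
    refine Finset.sum_congr rfl fun i _ => ?_
    rw [map_smul]
  have hxx : φ x x = 0 := by
    rw [hx]
    simp [map_sum, LinearMap.sum_apply, hiso]
  have hx0 : x ≠ 0 := by
    intro h0
    exact hi0 (Fintype.linearIndependent_iff.mp xv_li g h0 i0)
  apply hx0
  rw [hφr, form_eq] at hxx
  have h1 : ∀ t : Fin k, b.repr x (Sum.inl (0, t)) = s * b.repr x (Sum.inl (1, t)) := by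
    intro t
    have h2 := congrFun hfx t
    simp [f] at h2
    linarith
  have h3 : (∑ t : Fin k, 2 * (b.repr x (Sum.inl (1, t))) ^ 2)
      + ∑ t : Fin l, q8 (fun i => b.repr x (Sum.inr (i, t))) = 0 := by
    have h4 : s * ((∑ t : Fin k, 2 * (b.repr x (Sum.inl (1, t))) ^ 2)
      + ∑ t : Fin l, q8 (fun i => b.repr x (Sum.inr (i, t)))) = 0 := by
      rw [mul_add, Finset.mul_sum]
      rw [← hxx]
      congr 1
      refine Finset.sum_congr rfl fun t _ => ?_
      rw [h1 t]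
      ring
    rcases mul_eq_zero.mp h4 with h5 | h5
    · rw [h5] at hss
      simp at hss
    · exact h5
  have p1 : 0 ≤ ∑ t : Fin k, 2 * (b.repr x (Sum.inl (1, t))) ^ 2 :=
    Finset.sum_nonneg fun t _ => by positivity
  have p2 : 0 ≤ ∑ t : Fin l, q8 (fun i => b.repr x (Sum.inr (i, t))) :=
    Finset.sum_nonneg fun t _ => q8_nonneg _
  have z1 : ∑ t : Fin k, 2 * (b.repr x (Sum.inl (1, t))) ^ 2 = 0 := by linarith
  have z2 : ∑ t : Fin l, q8 (fun i => b.repr x (Sum.inr (i, t))) = 0 := by linarith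
  rw [Finset.sum_eq_zero_iff_of_nonneg (fun t _ => by positivity)] at z1
  rw [Finset.sum_eq_zero_iff_of_nonneg (fun t _ => q8_nonneg _)] at z2
  have w1 : ∀ t, b.repr x (Sum.inl (1, t)) = 0 := by
    intro t
    have := z1 t (Finset.mem_univ t)
    have h6 : (b.repr x (Sum.inl (1, t))) ^ 2 = 0 := by linarith
    exact pow_eq_zero_iff (two_ne_zero) |>.mp h6
  apply b.repr.injective
  ext i
  rw [map_zero, Finsupp.zero_apply]
  rcases i with ⟨a, t⟩ | ⟨c, t⟩
  · fin_cases a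
    · have := h1 t
      rw [w1 t, mul_zero] at this
      exact this
    · exact w1 t
  · exact q8_eq_zero _ (z2 t (Finset.mem_univ t)) c

end Pool.Agent.Y471.Torus
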