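import Pool.Agent.Y471.Torus.Excl
import Pool.Agent.Y471.Torus.DataPos
import Pool.Agent.Y471.Torus.DataNeg
import Pool.Agent.Y471.Torus.DataZero

/-!
# The forms arising in dimension eight
-/

namespace Pool.Agent.Y471.Torus

/-- The numbering of the basis with one copy of `E₈`. -/
def num1 : (Fin 2 × Fin 10) ⊕ (Fin 8 × Fin 1) → Fin 28
  | Sum.inl (a, t) => ⟨2 * t.val + a.val, by omega⟩
  | Sum.inr (c, _) => ⟨20 + c.val, by omega⟩

/-- The numbering of the basis with hyperbolic planes only. -/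
def num0 : (Fin 2 × Fin 14) ⊕ (Fin 8 × Fin 0) → Fin 28
  | Sum.inl (a, t) => ⟨2 * t.val + a.val, by omega⟩
  | Sum.inr (_, t) => t.elim0

lemma num1_inj : Function.Injective num1 := by
  unfold Function.Injective
  decide +kernel

lemma num0_inj : Function.Injective num0 := by
  unfold Function.Injective
  decide +kernel

/-- The numbering as an equivalence. -/
noncomputable def sig1 : (Fin 2 × Fin 10) ⊕ (Fin 8 × Fin 1) ≃ Fin 28 :=
  Equiv.ofBijective num1 ((Fintype.bijective_iff_injective_and_card num1).mpr ⟨num1_inj, by simp⟩)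

/-- The numbering as an equivalence. -/
noncomputable def sig0 : (Fin 2 × Fin 14) ⊕ (Fin 8 × Fin 0) ≃ Fin 28 :=
  Equiv.ofBijective num0 ((Fintype.bijective_iff_injective_and_card num0).mpr ⟨num0_inj, by simp⟩)

lemma reindex_eq {J : Type} (A : Matrix J J ℤ) (σ : J ≃ Fin 28) (L : List (List ℤ))
    (h : ∀ i j, A i j = get L (σ i) (σ j)) : A.reindex σ σ = mk L := by
  ext i j
  rw [Matrix.reindex_apply, Matrix.submatrix_apply, h]
  simp [mk]

lemma one_of_check {L M : List (List ℤ)}
    (h : ∀ i j : Fin 28, pe L M i.val j.val = if i = j then 1 else 0) : mk L * mk M = 1 := by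
  ext i j
  rw [mk, mk, Matrix.mul_apply, Matrix.one_apply, ← h i j, pe, sm_eq]
  rfl

/-- The entry of the Gram matrix. -/
def hf (k l : ℕ) (s : ℤ) (i j : (Fin 2 × Fin k) ⊕ (Fin 8 × Fin l)) : ℤ := HE k l s i j

lemma checkPos : ∀ i j, hf 10 1 1 i j = get mAPos (num1 i) (num1 j) := by
  decide +kernel

lemma checkNeg : ∀ i j, hf 10 1 (-1) i j = get mANeg (num1 i) (num1 j) := by
  decide +kernel

lemma checkZero : ∀ i j, hf 14 0 1 i j = get mAZero (num0 i) (num0 j) := by
  decide +kernel

lemma checkZero' : ∀ i j, hf 14 0 (-1) i j = get mAZero (num0 i) (num0 j) := by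
  decide +kernel

theorem arises_pos : Arises 8 (HE 10 1 1) := by
  have h := reindex_eq (HE 10 1 1) sig1 mAPos checkPos
  refine arises_of_cert (HE 10 1 1) sig1 wPos okwPos (mk mGPos) (mk mPPos) (mk mIPos) cfPos ?_ ?_
  · rw [h, mulPGPos, mulPGPPos]
  · rw [h, one_of_check oneCheckPos]

theorem arises_neg : Arises 8 (HE 10 1 (-1)) := by
  have h := reindex_eq (HE 10 1 (-1)) sig1 mANeg checkNeg
  refine arises_of_cert _ sig1 wNeg okwNeg (mk mGNeg) (mk mPNeg) (mk mINeg) cfNeg ?_ ?_
  · rw [h, mulPGNeg, mulPGPNeg]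
  · rw [h, one_of_check oneCheckNeg]

theorem arises_zero : Arises 8 (HE 14 0 1) := by
  have h := reindex_eq (HE 14 0 1) sig0 mAZero checkZero
  refine arises_of_cert _ sig0 wZero okwZero (mk mGZero) (mk mPZero) (mk mIZero) cfZero ?_ ?_
  · rw [h, mulPGZero, mulPGPZero]
  · rw [h, one_of_check oneCheckZero]

theorem arises_zero' : Arises 8 (HE 14 0 (-1)) := by
  have h := reindex_eq (HE 14 0 (-1)) sig0 mAZero checkZero'
  refine arises_of_cert _ sig0 wZero okwZero (mk mGZero) (mk mPZero) (mk mIZero) cfZero ?_ ?_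
  · rw [h, mulPGZero, mulPGPZero]
  · rw [h, one_of_check oneCheckZero]

theorem arises_of_arisesAs {J : Type} (A : Matrix J J ℤ) (h : ArisesAs 8 A) : Arises 8 A := by
  intro T hT
  obtain ⟨ω, hω, b, hli, hsp, hb⟩ := h T hT
  let b' : J → Coh 8 := b
  have hli' : LinearIndependent ℤ b' := hli
  have hsp' : Submodule.span ℤ (Set.range b') = HDeg 2 8 := hsp
  let c : Module.Basis J ℤ (HDeg 2 8) := (Module.Basis.span hli').map (LinearEquiv.ofEq _ _ hsp')
  have hc : ∀ j, (c j : Coh 8) = b' j := by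
    intro j
    simp [c, Module.Basis.span_apply]
  obtain ⟨w, hw, hb'⟩ : ∃ w : Coh 8, w ∈ HDeg (8 - 4) 8 ∧ ∀ i j, b' i * b' j * w = A i j • T :=
    ⟨ω, hω, hb⟩
  have hcc : ∀ i j, (c i : Coh 8) * (c j : Coh 8) * w = A i j • T := by
    intro i j
    rw [hc, hc]
    exact hb' i j
  refine ⟨w, hw, ?_⟩
  classical
  have hfin : Finite J := Module.Finite.finite_basis c
  have : Fintype J := Fintype.ofFinite J
  refine ⟨Matrix.toBilin c A, ?_, c, ?_⟩
  · intro x y
    have hx : (x : Coh 8) = ∑ i, c.repr x i • (c i : Coh 8) := by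
      conv_lhs => rw [← c.sum_repr x]
      rw [Submodule.coe_sum]
      rfl
    have hy : (y : Coh 8) = ∑ i, c.repr y i • (c i : Coh 8) := by
      conv_lhs => rw [← c.sum_repr y]
      rw [Submodule.coe_sum]
      rfl
    rw [Matrix.toBilin_apply, hx, hy, Finset.sum_mul, Finset.sum_mul, Finset.sum_smul]
    refine Finset.sum_congr rfl fun i _ => ?_
    rw [Finset.mul_sum, Finset.sum_mul, Finset.sum_smul]
    refine Finset.sum_congr rfl fun j _ => ?_
    rw [smul_mul_assoc, mul_smul_comm, smul_mul_assoc, smul_mul_assoc, hcc, smul_smul, smul_smul]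
    congr 1
    ring
  · intro i j
    rw [Matrix.toBilin_apply]
    simp [Finsupp.single_apply]

theorem arisesAs_of_arises {J : Type} (A : Matrix J J ℤ) (h : Arises 8 A) : ArisesAs 8 A := by
  intro T hT
  obtain ⟨ω, hω, φ, hφ, b, hb⟩ := h T hT
  let b' : J → Coh 8 := fun j => (b j : Coh 8)
  refine ⟨ω, hω, b', ?_, ?_, ?_⟩
  · have h1 : LinearIndependent ℤ b' :=
      b.linearIndependent.map' (HDeg 2 8).subtype (Submodule.ker_subtype _)
    exact h1
  · have h1 : Submodule.span ℤ (Set.range b') = HDeg 2 8 := by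
      have h2 : Set.range b' = (HDeg 2 8).subtype '' Set.range b := by
        rw [← Set.range_comp]
        rfl
      rw [h2, ← Submodule.map_span, b.span_eq, Submodule.map_top, Submodule.range_subtype]
    exact h1
  · intro i j
    have h1 : b' i * b' j * ω = A i j • T := by
      rw [← hb]
      exact hφ (b i) (b j)
    exact h1

end Pool.Agent.Y471.Torus
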